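import Mathlib

set_option autoImplicit false

open Filter Topology Set Function MeasureTheory Complex

namespace Pool.Agent.H.MP_ff8adc_an

noncomputable def Rect (g : ℂ → ℂ) (a b c d : ℝ) : ℂ :=
  (∫ x in a..b, g (x + c * I)) - (∫ x in a..b, g (x + d * I)) +
    I * (∫ y in c..d, g (b + y * I)) - I * (∫ y in c..d, g (a + y * I))

theorem rect_zero {g : ℂ → ℂ} {a b c d : ℝ} (h : DifferentiableOn ℂ g (uIcc a b ×ℂ uIcc c d)) :
    Rect g a b c d = 0 :=
  integral_boundary_rect_eq_zero_of_differentiableOn g ⟨a, c⟩ ⟨b, d⟩ h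

theorem rect_inv {a b c d : ℝ} {w : ℂ} (h1 : a < w.re) (h2 : w.re < b) (h3 : c < w.im)
    (h4 : w.im < d) : Rect (fun s => 1 / (s - w)) a b c d = 2 * Real.pi * I := by
  have hz : ∀ (e : ℝ), e ≠ w.im → ∫ x in a..b, 1 / ((x : ℂ) + e * I - w) =
      log (b + e * I - w) - log (a + e * I - w) := by
    intro e he
    have hs : ∀ x : ℝ, (x : ℂ) + e * I - w ∈ slitPlane := fun x => Or.inr (by
      simpa [sub_eq_zero] using he)
    refine intervalIntegral.integral_eq_sub_of_hasDerivAt
      (f := fun x : ℝ => log (x + e * I - w)) (fun x _ => ?_) (Continuous.intervalIntegrable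
        (continuous_const.div (by fun_prop) (fun x => slitPlane_ne_zero (hs x))) _ _)
    exact (((hasDerivAt_id' (x : ℂ)).add_const _).sub_const _).clog (hs x) |>.comp_ofReal
  have hv : ∀ (e : ℝ) (t : ℂ), (∀ y : ℝ, t * ((e : ℂ) + y * I - w) ∈ slitPlane) → t ≠ 0 →
      I * ∫ y in c..d, 1 / ((e : ℂ) + y * I - w) =
      log (t * (e + d * I - w)) - log (t * (e + c * I - w)) := by
    intro e t hs ht
    have hne : ∀ y : ℝ, (e : ℂ) + y * I - w ≠ 0 := fun y =>
      right_ne_zero_of_mul (slitPlane_ne_zero (hs y))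
    rw [← intervalIntegral.integral_const_mul]
    refine intervalIntegral.integral_eq_sub_of_hasDerivAt
      (f := fun y : ℝ => log (t * (e + y * I - w))) (fun y _ => ?_) (Continuous.intervalIntegrable
        (continuous_const.mul (continuous_const.div (by fun_prop) hne)) _ _)
    have := ((((((hasDerivAt_id' (y : ℂ)).mul_const I).const_add (e : ℂ)).sub_const w).const_mul
      t).clog (hs y)).comp_ofReal
    refine this.congr_deriv ?_
    have := hne y
    field_simp
  rw [Rect, hz c h3.ne, hz d h4.ne', hv b 1 (fun y => Or.inl (by simp; linarith)) one_ne_zero,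
    hv a (-1) (fun y => Or.inl (by simp; linarith)) (by norm_num)]
  simp only [one_mul, neg_one_mul]
  have e1 : log (-((a : ℂ) + d * I - w)) = log (a + d * I - w) - Real.pi * I := by
    rw [log, log, norm_neg, arg_neg_eq_arg_sub_pi_of_im_pos (by simp; linarith)]
    push_cast; ring
  have e2 : log (-((a : ℂ) + c * I - w)) = log (a + c * I - w) + Real.pi * I := by
    rw [log, log, norm_neg, arg_neg_eq_arg_add_pi_of_im_neg (by simp; linarith)]
    push_cast; ring
  rw [e1, e2]; ring

theorem rect_cauchy {F : ℂ → ℂ} {a b c d : ℝ} {w : ℂ} (h1 : a < w.re) (h2 : w.re < b)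
    (h3 : c < w.im) (h4 : w.im < d) (hF : DifferentiableOn ℂ F (uIcc a b ×ℂ uIcc c d)) :
    Rect (fun s => F s / (s - w)) a b c d = 2 * Real.pi * I * F w := by
  have hab : a ≤ b := by linarith
  have hcd : c ≤ d := by linarith
  have hn : uIcc a b ×ℂ uIcc c d ∈ 𝓝 w := by
    rw [uIcc_of_le hab, uIcc_of_le hcd]
    exact mem_of_superset ((isOpen_Ioo.reProdIm isOpen_Ioo).mem_nhds ⟨⟨h1, h2⟩, h3, h4⟩)
      (fun z hz => ⟨Ioo_subset_Icc_self hz.1, Ioo_subset_Icc_self hz.2⟩)
  have hd := (Complex.differentiableOn_dslope hn).2 hF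
  have h0 := rect_zero hd
  have hi := rect_inv h1 h2 h3 h4
  have e : ∀ s, s ≠ w → F s / (s - w) = dslope F w s + F w * (1 / (s - w)) := by
    intro s hs
    have := sub_ne_zero.2 hs
    rw [dslope_of_ne _ hs, slope_def_field]; field_simp; ring
  have hx : ∀ e' ∈ uIcc c d, e' ≠ w.im → ∫ x in a..b, F (x + e' * I) / (x + e' * I - w) =
      (∫ x in a..b, dslope F w (x + e' * I)) + F w * ∫ x in a..b, 1 / ((x : ℂ) + e' * I - w) := by
    intro e' h he
    have hne : ∀ x : ℝ, (x : ℂ) + e' * I ≠ w := fun x hc => he (by rw [← hc]; simp)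
    rw [← intervalIntegral.integral_const_mul, ← intervalIntegral.integral_add]
    · exact intervalIntegral.integral_congr (fun x _ => e _ (hne x))
    · exact (hd.continuousOn.comp (f := fun x : ℝ => (x : ℂ) + e' * I) (by fun_prop)
        (fun x hx => ⟨by simpa using hx, by simpa using h⟩)).intervalIntegrable
    · exact Continuous.intervalIntegrable (continuous_const.mul
        (continuous_const.div (by fun_prop) (fun x => sub_ne_zero.2 (hne x)))) _ _
  have hy : ∀ e' ∈ uIcc a b, e' ≠ w.re → ∫ y in c..d, F (e' + y * I) / (e' + y * I - w) =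
      (∫ y in c..d, dslope F w (e' + y * I)) + F w * ∫ y in c..d, 1 / ((e' : ℂ) + y * I - w) := by
    intro e' h he
    have hne : ∀ y : ℝ, (e' : ℂ) + y * I ≠ w := fun y hc => he (by rw [← hc]; simp)
    rw [← intervalIntegral.integral_const_mul, ← intervalIntegral.integral_add]
    · exact intervalIntegral.integral_congr (fun x _ => e _ (hne x))
    · exact (hd.continuousOn.comp (f := fun y : ℝ => (e' : ℂ) + y * I) (by fun_prop)
        (fun x hx => ⟨by simpa using h, by simpa using hx⟩)).intervalIntegrable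
    · exact Continuous.intervalIntegrable (continuous_const.mul
        (continuous_const.div (by fun_prop) (fun x => sub_ne_zero.2 (hne x)))) _ _
  simp only [Rect] at h0 hi ⊢
  rw [hx c left_mem_uIcc h3.ne, hx d right_mem_uIcc h4.ne', hy b right_mem_uIcc h2.ne',
    hy a left_mem_uIcc h1.ne]
  linear_combination h0 + F w * hi

theorem rect_pole {h : ℂ → ℂ} (hh : Differentiable ℂ h) {α : ℝ} (hα : α ≠ 0) {a b c d : ℝ}
    {w : ℂ} (h1 : a < w.re) (h2 : w.re < b) (h3 : c < w.im) (h4 : w.im < d)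
    (hz : ∀ s : ℂ, s.im ∈ uIcc c d → exp (α * s) = exp (α * w) → s = w) :
    Rect (fun s => h s / (exp (α * s) - exp (α * w))) a b c d =
      2 * Real.pi * I * (h w / (α * exp (α * w))) := by
  set E : ℂ → ℂ := fun s => exp (α * s) with hE
  have hEd : Differentiable ℂ E := by fun_prop
  have hD : Differentiable ℂ (dslope E w) := by
    rw [← differentiableOn_univ, Complex.differentiableOn_dslope univ_mem]
    exact hEd.differentiableOn
  have hw : dslope E w w = α * exp (α * w) := by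
    rw [dslope_same]
    have := (((hasDerivAt_id' w).const_mul (α : ℂ)).cexp).deriv
    rw [this]; ring
  have hα' : (α : ℂ) ≠ 0 := by exact_mod_cast hα
  have hne : ∀ s : ℂ, s.im ∈ uIcc c d → dslope E w s ≠ 0 := by
    intro s hs
    by_cases hsw : s = w
    · rw [hsw, hw]; exact mul_ne_zero hα' (exp_ne_zero _)
    · rw [dslope_of_ne _ hsw, slope_def_field]
      exact div_ne_zero (sub_ne_zero.2 (fun hc => hsw (hz s hs hc))) (sub_ne_zero.2 hsw)
  have := rect_cauchy (F := fun s => h s / dslope E w s) h1 h2 h3 h4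
    (hh.differentiableOn.div hD.differentiableOn (fun s hs => hne s hs.2))
  rw [hw] at this
  rw [← this]
  congr 1
  funext s
  have e := sub_smul_dslope E w s
  rw [smul_eq_mul] at e
  rw [div_div, mul_comm (dslope E w s), e]

noncomputable def jmp (g : ℂ → ℂ) (x : ℝ) : ℂ :=
  g (x + Real.pi * I) - g (x + (-Real.pi : ℝ) * I)

noncomputable def Vt (g : ℂ → ℂ) (σ : ℝ) : ℂ := I * ∫ y in (-Real.pi)..Real.pi, g (σ + y * I)

noncomputable def Hk (g : ℂ → ℂ) (σ : ℝ) : ℂ := (∫ x in Ioi σ, jmp g x) + Vt g σ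

theorem H_eq {g : ℂ → ℂ} {σ : ℝ} {c v : ℂ} (hj : Integrable (jmp g))
    (c1 : Continuous fun x : ℝ => g (x + Real.pi * I))
    (c2 : Continuous fun x : ℝ => g (x + (-Real.pi : ℝ) * I))
    (hv : Tendsto (Vt g) atBot (𝓝 v))
    (hr : ∀ᶠ a in atBot, Rect g a σ (-Real.pi) Real.pi = c) :
    Hk g σ = c + v + ∫ x, jmp g x := by
  have h1 := intervalIntegral_tendsto_integral_Iic σ hj.integrableOn tendsto_id
  have h2 : Tendsto (fun a => -(∫ x in a..σ, jmp g x) + Vt g σ - Vt g a) atBot
      (𝓝 (-(∫ x in Iic σ, jmp g x) + Vt g σ - v)) := (h1.neg.add_const _).sub hv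
  have h3 : -(∫ x in Iic σ, jmp g x) + Vt g σ - v = c := by
    refine tendsto_nhds_unique h2 (tendsto_const_nhds.congr' ?_)
    filter_upwards [hr] with a ha
    rw [← ha, Rect, Vt, Vt]
    simp only [jmp]
    rw [intervalIntegral.integral_sub (c1.intervalIntegrable _ _) (c2.intervalIntegrable _ _)]
    ring
  rw [Hk, ← intervalIntegral.integral_Iic_add_Ioi (b := σ) hj.integrableOn hj.integrableOn, ← h3]
  ring

theorem Vt_lim {g : ℂ → ℂ} {c : ℂ} {B : ℝ → ℝ} (hB : Tendsto B atBot (𝓝 0))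
    (hc : ∀ᶠ (a : ℝ) in atBot, Continuous (fun y : ℝ => g (a + y * I)) ∧
      ∀ y : ℝ, ‖g (a + y * I) - c‖ ≤ B a) :
    Tendsto (Vt g) atBot (𝓝 (2 * Real.pi * I * c)) := by
  rw [tendsto_iff_norm_sub_tendsto_zero]
  have h := hB.mul_const |Real.pi - -Real.pi|
  rw [zero_mul] at h
  refine squeeze_zero' (Eventually.of_forall (fun _ => norm_nonneg _)) ?_ h
  filter_upwards [hc] with a ha
  have : Vt g a - 2 * Real.pi * I * c = I * ∫ y in (-Real.pi)..Real.pi, (g (a + y * I) - c) := by
    rw [intervalIntegral.integral_sub (ha.1.intervalIntegrable _ _) intervalIntegrable_const, Vt]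
    simp; ring
  rw [this, norm_mul, norm_I, one_mul]
  exact intervalIntegral.norm_integral_le_of_norm_le_const (fun y _ => ha.2 y)

noncomputable def ee (τ a : ℝ) (s : ℂ) : ℂ := exp (τ * exp s + a * s)

noncomputable def K (τ a x : ℝ) : ℝ := Real.exp (-(τ * Real.exp x) + a * x)

theorem K_pos (τ a x : ℝ) : 0 < K τ a x := Real.exp_pos _

theorem ee_up (τ a x : ℝ) : ee τ a (x + Real.pi * I) = K τ a x * exp (a * Real.pi * I) := by
  rw [ee, exp_add (x : ℂ), exp_pi_mul_I, K]
  push_cast
  rw [← exp_add]; congr 1; ring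

theorem ee_dn (τ a x : ℝ) :
    ee τ a (x + (-Real.pi : ℝ) * I) = K τ a x * exp (-(a * Real.pi * I)) := by
  rw [ee, exp_add (x : ℂ), K]
  push_cast
  rw [neg_mul, exp_neg, exp_pi_mul_I, ← exp_add]; congr 1; ring

theorem ee_norm {τ : ℝ} (hτ : 0 ≤ τ) (a x y : ℝ) :
    ‖ee τ a (x + y * I)‖ ≤ Real.exp (τ * Real.exp x + a * x) := by
  rw [ee, norm_exp]
  refine Real.exp_le_exp.2 ?_
  have h1 : (exp ((x : ℂ) + y * I)).re ≤ Real.exp x := by
    refine (re_le_norm _).trans (le_of_eq ?_)
    rw [norm_exp]; simp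
  simp only [add_re, mul_re, ofReal_re, ofReal_im, zero_mul, sub_zero, I_re, mul_zero, I_im,
    mul_one, add_zero]
  nlinarith

theorem ee_diff (τ a : ℝ) : Differentiable ℂ (ee τ a) := by unfold ee; fun_prop

theorem K_int {τ a : ℝ} (hτ : 0 < τ) (ha : 0 < a) :
    Integrable (K τ a) ∧ ∫ x, K τ a x = (1 / τ) ^ a * Real.Gamma a := by
  have e : ∀ x : ℝ, |Real.exp x| • (Real.exp x ^ (a - 1) * Real.exp (-(τ * Real.exp x))) =
      K τ a x := by
    intro x
    rw [abs_of_pos (Real.exp_pos x), smul_eq_mul, ← Real.exp_mul, ← Real.exp_add, ← Real.exp_add, K]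
    congr 1; ring
  have him : Real.exp '' univ = Ioi 0 := by rw [image_univ, Real.range_exp]
  have hd : ∀ x ∈ (univ : Set ℝ), HasDerivWithinAt Real.exp (Real.exp x) univ x :=
    fun x _ => (Real.hasDerivAt_exp x).hasDerivWithinAt
  have h1 := integrableOn_image_iff_integrableOn_abs_deriv_smul MeasurableSet.univ hd
    Real.exp_injective.injOn (fun t => t ^ (a - 1) * Real.exp (-(τ * t)))
  have h2 := integral_image_eq_integral_abs_deriv_smul MeasurableSet.univ hd
    Real.exp_injective.injOn (fun t => t ^ (a - 1) * Real.exp (-(τ * t)))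
  rw [him] at h1 h2
  simp only [e, integrableOn_univ, Measure.restrict_univ] at h1 h2
  refine ⟨h1.1 ?_, by rw [← h2, Real.integral_rpow_mul_exp_neg_mul_Ioi ha hτ]⟩
  have := integrableOn_rpow_mul_exp_neg_mul_rpow (s := a - 1) (p := 1) (b := τ) (by linarith)
    one_pos hτ
  simpa using this

theorem K_cont (τ a : ℝ) : Continuous (K τ a) := by unfold K; fun_prop

theorem K_intOn {τ : ℝ} (hτ : 0 < τ) (a σ : ℝ) : IntegrableOn (K τ a) (Ioi σ) := by
  have h := ((K_int hτ (show 0 < |a| + 1 by positivity)).1.const_mul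
    (Real.exp ((a - (|a| + 1)) * σ))).integrableOn (s := Ioi σ)
  refine h.mono' (K_cont τ a).aestronglyMeasurable ?_
  filter_upwards [ae_restrict_mem measurableSet_Ioi] with x hx
  rw [Real.norm_eq_abs, abs_of_pos (K_pos _ _ _), K, K, ← Real.exp_add]
  refine Real.exp_le_exp.2 ?_
  have : σ < x := hx
  nlinarith [le_abs_self a]

end Pool.Agent.H.MP_ff8adc_an
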