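import Mathlib
import Pool.Agent.H.MP_ff8adc_an.A

set_option autoImplicit false

open Filter Topology Set Function MeasureTheory Complex

namespace Pool.Agent.H.MP_ff8adc_an

theorem jmp_ee (τ a x : ℝ) :
    jmp (ee τ a) x = K τ a x * (exp (a * Real.pi * I) - exp (-(a * Real.pi * I))) := by
  rw [jmp, ee_up, ee_dn]; ring

theorem jmp_intOn {τ : ℝ} (hτ : 0 < τ) (a σ : ℝ) : IntegrableOn (jmp (ee τ a)) (Ioi σ) := by
  rw [funext (jmp_ee τ a)]
  exact (K_intOn hτ a σ).ofReal.mul_const _

theorem exp_bot {a : ℝ} (ha : 0 < a) : Tendsto (fun x : ℝ => Real.exp (a * x)) atBot (𝓝 0) :=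
  Real.tendsto_exp_atBot.comp (tendsto_id.const_mul_atBot ha)

theorem ee_norm' {τ : ℝ} (hτ : 0 ≤ τ) (a : ℝ) {x : ℝ} (hx : x ≤ 0) (y : ℝ) :
    ‖ee τ a (x + y * I)‖ ≤ Real.exp τ * Real.exp (a * x) := by
  refine (ee_norm hτ a x y).trans ?_
  rw [← Real.exp_add]
  exact Real.exp_le_exp.2 (by nlinarith [Real.exp_le_one_iff.2 hx])

theorem hk_base {τ x : ℝ} (hτ : 0 < τ) (h0 : 0 < x) (h1 : x ≤ 1) (σ : ℝ) :
    Hk (ee τ (1 - x)) σ = 2 * Real.pi * I * (τ ^ (x - 1) / Real.Gamma x : ℝ) := by
  have hd := ee_diff τ (1 - x)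
  have c0 := hd.continuous
  have hr : ∀ᶠ a in atBot, Rect (ee τ (1 - x)) a σ (-Real.pi) Real.pi = 0 :=
    Eventually.of_forall (fun a => rect_zero hd.differentiableOn)
  rcases eq_or_lt_of_le h1 with h | h
  · subst h
    have hj : jmp (ee τ (1 - 1)) = fun _ => 0 := by funext x; rw [jmp_ee]; simp
    have hv := Vt_lim (g := ee τ (1 - 1)) (c := 1) (B := fun a => 2 * (τ * Real.exp (1 * a)))
      (by simpa using ((exp_bot one_pos).const_mul τ).const_mul 2) (by
        have := ((exp_bot one_pos).const_mul τ).eventually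
          (ge_mem_nhds (show τ * 0 < 1 by simp))
        filter_upwards [this] with a ha
        refine ⟨by fun_prop, fun y => ?_⟩
        have e : ‖(τ : ℂ) * exp (a + y * I)‖ = τ * Real.exp (1 * a) := by
          rw [norm_mul, norm_real, norm_exp, Real.norm_eq_abs, abs_of_pos hτ]; simp
        rw [ee, ← e]
        simp only [sub_self, ofReal_zero, zero_mul, add_zero]
        exact Complex.norm_exp_sub_one_le (by rw [e]; exact ha))
    rw [H_eq (by rw [hj]; exact integrable_zero _ _ _) (by fun_prop) (by fun_prop) hv hr, hj]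
    simp
  · have ha : 0 < 1 - x := by linarith
    obtain ⟨k1, k2⟩ := K_int hτ ha
    have hv := Vt_lim (g := ee τ (1 - x)) (c := 0)
      (B := fun a => Real.exp τ * Real.exp ((1 - x) * a))
      (by simpa using (exp_bot ha).const_mul (Real.exp τ)) (by
        filter_upwards [eventually_le_atBot 0] with a ha
        exact ⟨by fun_prop, fun y => by rw [sub_zero]; exact ee_norm' hτ.le _ ha y⟩)
    rw [H_eq (by rw [funext (jmp_ee τ (1 - x))]; exact k1.ofReal.mul_const _) (by fun_prop)
      (by fun_prop) hv hr]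
    simp_rw [jmp_ee]
    rw [integral_mul_const, integral_complex_ofReal, k2]
    have e1 : exp ((1 - x : ℝ) * Real.pi * I) - exp (-((1 - x : ℝ) * Real.pi * I)) =
        2 * I * (Real.sin (Real.pi * x) : ℝ) := by
      rw [← Real.sin_pi_sub, ofReal_sin, Complex.sin]
      push_cast
      rw [show (1 - (x : ℂ)) * Real.pi = Real.pi - Real.pi * x by ring, neg_mul]
      linear_combination (exp ((Real.pi - Real.pi * x) * I) -
        exp (-((Real.pi - Real.pi * x) * I))) * I_mul_I
    have hs : 0 < Real.sin (Real.pi * x) :=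
      Real.sin_pos_of_pos_of_lt_pi (by positivity) (by nlinarith [Real.pi_pos])
    have hG := Real.Gamma_pos_of_pos h0
    have e2 : (1 / τ) ^ (1 - x) * Real.Gamma (1 - x) * Real.sin (Real.pi * x) =
        Real.pi * (τ ^ (x - 1) / Real.Gamma x) := by
      have := Real.Gamma_mul_Gamma_one_sub x
      rw [eq_div_iff hs.ne'] at this
      rw [one_div, Real.inv_rpow hτ.le, ← Real.rpow_neg hτ.le, neg_sub, ← mul_div_assoc,
        eq_div_iff hG.ne']
      linear_combination τ ^ (x - 1) * this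
    have e3 := congrArg (fun r : ℝ => (r : ℂ)) e2
    simp only [ofReal_mul] at e3
    rw [e1]
    simp only [ofReal_mul]
    linear_combination 2 * I * e3

theorem K_top {τ x : ℝ} (hτ : 0 < τ) (hx : 0 ≤ x) : Tendsto (K τ (-x)) atTop (𝓝 0) := by
  have h : Tendsto (fun u : ℝ => Real.exp (-τ * u)) atTop (𝓝 0) :=
    Real.tendsto_exp_atBot.comp (tendsto_id.const_mul_atTop_of_neg (by linarith))
  refine squeeze_zero' (Eventually.of_forall (fun u => (K_pos _ _ _).le)) ?_ h
  filter_upwards [eventually_ge_atTop 0] with u hu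
  exact Real.exp_le_exp.2 (by nlinarith [Real.add_one_le_exp u, mul_nonneg hx hu])

theorem hk_rec {τ x : ℝ} (hτ : 0 < τ) (hx : 0 ≤ x) (σ : ℝ) :
    τ * Hk (ee τ (1 - x)) σ = x * Hk (ee τ (1 - (x + 1))) σ := by
  rw [show 1 - (x + 1) = -x by ring]
  have hd : ∀ s, HasDerivAt (ee τ (-x)) (τ * ee τ (1 - x) s - x * ee τ (-x) s) s := by
    intro s
    have := (((hasDerivAt_exp s).const_mul (τ : ℂ)).add
      ((hasDerivAt_id' s).const_mul ((-x : ℝ) : ℂ))).cexp
    refine this.congr_deriv ?_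
    have e : ee τ (1 - x) s = ee τ (-x) s * exp s := by
      rw [ee, ee, ← exp_add]; congr 1; push_cast; ring
    rw [e, ee]; simp only [Pi.add_apply]; push_cast; ring
  have i1 := jmp_intOn hτ (1 - x) σ
  have i2 := jmp_intOn hτ (-x) σ
  have c1 := (ee_diff τ (1 - x)).continuous
  have c2 := (ee_diff τ (-x)).continuous
  have h1 : ∫ u in Ioi σ, ((τ : ℂ) * jmp (ee τ (1 - x)) u - x * jmp (ee τ (-x)) u) =
      0 - jmp (ee τ (-x)) σ := by
    refine integral_Ioi_of_hasDerivAt_of_tendsto (by unfold jmp; fun_prop) (fun u _ => ?_)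
      ((i1.const_mul _).sub (i2.const_mul _)) ?_
    · have a1 := ((hd _).comp (u : ℂ) ((hasDerivAt_id' (u : ℂ)).add_const
        (Real.pi * I))).comp_ofReal
      have a2 := ((hd _).comp (u : ℂ) ((hasDerivAt_id' (u : ℂ)).add_const
        ((-Real.pi : ℝ) * I))).comp_ofReal
      refine (a1.sub a2).congr_deriv ?_
      simp only [jmp]; ring
    · rw [funext (jmp_ee τ (-x))]
      have := (continuous_ofReal.tendsto 0).comp (K_top hτ hx)
      simpa using this.mul_const (exp ((-x : ℝ) * Real.pi * I) - exp (-((-x : ℝ) * Real.pi * I)))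
  have h2 : ∫ y in (-Real.pi)..Real.pi, ((τ : ℂ) * ee τ (1 - x) (σ + y * I) -
      x * ee τ (-x) (σ + y * I)) * I = jmp (ee τ (-x)) σ := by
    rw [jmp]
    refine intervalIntegral.integral_eq_sub_of_hasDerivAt
      (f := fun y : ℝ => ee τ (-x) (σ + y * I)) (fun y _ => ?_)
      (Continuous.intervalIntegrable (by fun_prop) _ _)
    have := ((hd _).comp (y : ℂ) (((hasDerivAt_id' (y : ℂ)).mul_const I).const_add
      (σ : ℂ))).comp_ofReal
    exact this.congr_deriv (by ring)
  rw [integral_sub (i1.const_mul _) (i2.const_mul _), integral_const_mul, integral_const_mul] at h1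
  rw [intervalIntegral.integral_mul_const, intervalIntegral.integral_sub
    (Continuous.intervalIntegrable (by fun_prop) _ _)
    (Continuous.intervalIntegrable (by fun_prop) _ _), intervalIntegral.integral_const_mul,
    intervalIntegral.integral_const_mul] at h2
  simp only [Hk, Vt]
  linear_combination h1 + h2

theorem hankel {τ : ℝ} (hτ : 0 < τ) (σ : ℝ) {x : ℝ} (h0 : 0 < x) :
    Hk (ee τ (1 - x)) σ = 2 * Real.pi * I * (τ ^ (x - 1) / Real.Gamma x : ℝ) := by
  obtain ⟨n, hn⟩ := exists_nat_ge x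
  induction n generalizing x with
  | zero => exact absurd (h0.trans_le hn) (by simp)
  | succ n ih =>
    rcases le_or_gt x 1 with h | h
    · exact hk_base hτ h0 h σ
    have h1 : 0 < x - 1 := by linarith
    have h2 := hk_rec hτ h1.le σ
    rw [ih h1 (by push_cast at hn; linarith), sub_add_cancel] at h2
    have e : τ * (τ ^ (x - 1 - 1) / Real.Gamma (x - 1)) = (x - 1) * (τ ^ (x - 1) / Real.Gamma x) := by
      have := (Real.Gamma_pos_of_pos h1).ne'
      have e1 := Real.Gamma_add_one h1.ne'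
      rw [sub_add_cancel] at e1
      rw [e1, Real.rpow_sub_one hτ.ne' (x - 1)]
      field_simp
    have e3 := congrArg (fun r : ℝ => (r : ℂ)) e
    simp only [ofReal_mul] at e3
    have h3 : ((x - 1 : ℝ) : ℂ) ≠ 0 := by exact_mod_cast h1.ne'
    refine mul_left_cancel₀ h3 ?_
    rw [← h2]
    linear_combination 2 * Real.pi * I * e3

noncomputable def gg (τ α β : ℝ) (l : ℂ) (s : ℂ) : ℂ := ee τ (1 + α - β) s / (exp (α * s) - l)

theorem geo {τ α β : ℝ} {l : ℂ} (hα : 0 < α) (hl : ‖l‖ = 1) {s : ℂ} (hs : 1 ≤ s.re) :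
    HasSum (fun k : ℕ => l ^ k * ee τ (1 - (α * k + β)) s) (gg τ α β l s) ∧
    ∀ k : ℕ, ‖l ^ k * ee τ (1 - (α * k + β)) s‖ ≤ ‖ee τ (1 - β) s‖ * Real.exp (-α) ^ k := by
  have e : ∀ k : ℕ, l ^ k * ee τ (1 - (α * k + β)) s = ee τ (1 - β) s * (l * exp (-(α * s))) ^ k := by
    intro k
    rw [mul_pow, ← exp_nat_mul, ee, ee, mul_left_comm, ← exp_add]
    congr 2; push_cast; ring
  have hn : ‖l * exp (-(α * s))‖ ≤ Real.exp (-α) := by
    rw [norm_mul, hl, one_mul, norm_exp]
    refine Real.exp_le_exp.2 ?_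
    simp; nlinarith
  have h1 : Real.exp (-α) < 1 := Real.exp_lt_one_iff.2 (by linarith)
  simp_rw [e]
  refine ⟨?_, fun k => ?_⟩
  · have h := (hasSum_geometric_of_norm_lt_one (hn.trans_lt h1)).mul_left (ee τ (1 - β) s)
    have e2 : ee τ (1 + α - β) s = ee τ (1 - β) s * exp (α * s) := by
      rw [ee, ee, ← exp_add]; congr 1; push_cast; ring
    have e3 : exp (α * s) - l = exp (α * s) * (1 - l * exp (-(α * s))) := by
      rw [mul_sub, mul_left_comm, ← exp_add]; simp
    rw [gg, e2, e3, mul_comm (ee τ (1 - β) s), mul_div_mul_left _ _ (exp_ne_zero _), div_eq_mul_inv]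
    exact h
  · rw [norm_mul, norm_pow]
    exact mul_le_mul_of_nonneg_left (pow_le_pow_left₀ (norm_nonneg _) hn k) (norm_nonneg _)

theorem hk_sum {τ α β : ℝ} {l : ℂ} (hτ : 0 < τ) (hα : 0 < α) (hβ : 0 < β) (hl : ‖l‖ = 1) :
    HasSum (fun k : ℕ => l ^ k * (2 * Real.pi * I *
      (τ ^ (α * k + β - 1) / Real.Gamma (α * k + β) : ℝ))) (Hk (gg τ α β l) 1) := by
  have h1 : Real.exp (-α) < 1 := Real.exp_lt_one_iff.2 (by linarith)
  have hg := summable_geometric_of_lt_one (Real.exp_pos (-α)).le h1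
  have cc : ∀ a : ℝ, Continuous (ee τ a) := fun a => (ee_diff τ a).continuous
  have n1 : ∀ x : ℝ, ‖ee τ (1 - β) (x + Real.pi * I)‖ = K τ (1 - β) x := fun x => by
    rw [ee_up, norm_mul, norm_real, norm_exp, Real.norm_eq_abs, abs_of_pos (K_pos _ _ _)]; simp
  have n2 : ∀ x : ℝ, ‖ee τ (1 - β) (x + (-Real.pi : ℝ) * I)‖ = K τ (1 - β) x := fun x => by
    rw [ee_dn, norm_mul, norm_real, norm_exp, Real.norm_eq_abs, abs_of_pos (K_pos _ _ _)]; simp
  have A := hasSum_integral_of_dominated_convergence (μ := volume.restrict (Ioi (1 : ℝ)))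
    (F := fun (k : ℕ) (x : ℝ) => l ^ k * jmp (ee τ (1 - (α * k + β))) x) (f := jmp (gg τ α β l))
    (fun k x => 2 * K τ (1 - β) x * Real.exp (-α) ^ k)
    (fun k => Continuous.aestronglyMeasurable (by have := cc (1 - (α * k + β)); unfold jmp; fun_prop))
    (fun k => by
      filter_upwards [ae_restrict_mem measurableSet_Ioi] with x hx
      have hx' : 1 < x := hx
      have a1 := (geo (τ := τ) (β := β) hα hl (s := x + Real.pi * I) (by simp; linarith)).2 k
      have a2 := (geo (τ := τ) (β := β) hα hl (s := x + (-Real.pi : ℝ) * I)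
        (by simp; linarith)).2 k
      rw [n1] at a1; rw [n2] at a2
      rw [jmp, mul_sub]
      exact (norm_sub_le _ _).trans (by linarith))
    (Eventually.of_forall (fun x => hg.mul_left _))
    (by simp_rw [tsum_mul_left]
        exact ((K_intOn hτ (1 - β) 1).const_mul 2).mul_const _)
    (by
      filter_upwards [ae_restrict_mem measurableSet_Ioi] with x hx
      have hx' : 1 < x := hx
      have a1 := (geo (τ := τ) (β := β) hα hl (s := x + Real.pi * I) (by simp; linarith)).1
      have a2 := (geo (τ := τ) (β := β) hα hl (s := x + (-Real.pi : ℝ) * I)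
        (by simp; linarith)).1
      simpa only [jmp, mul_sub] using a1.sub a2)
  have B := intervalIntegral.hasSum_integral_of_dominated_convergence (μ := volume)
    (a := -Real.pi) (b := Real.pi)
    (F := fun (k : ℕ) (y : ℝ) => l ^ k * ee τ (1 - (α * k + β)) ((1 : ℝ) + y * I))
    (f := fun y => gg τ α β l ((1 : ℝ) + y * I))
    (fun k _ => Real.exp (τ * Real.exp 1 + (1 - β) * 1) * Real.exp (-α) ^ k)
    (fun k => Continuous.aestronglyMeasurable (by have := cc (1 - (α * k + β)); fun_prop))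
    (fun k => Eventually.of_forall (fun y _ =>
      ((geo (τ := τ) (β := β) hα hl (s := (1 : ℝ) + y * I) (by simp)).2 k).trans
        (mul_le_mul_of_nonneg_right (ee_norm hτ.le _ _ _) (by positivity))))
    (Eventually.of_forall (fun x _ => hg.mul_left _)) intervalIntegrable_const
    (Eventually.of_forall (fun y _ =>
      (geo (τ := τ) (β := β) hα hl (s := (1 : ℝ) + y * I) (by simp)).1))
  have C := A.add (B.mul_left I)
  have e : ∀ k : ℕ, l ^ k * (2 * Real.pi * I *
      (τ ^ (α * k + β - 1) / Real.Gamma (α * k + β) : ℝ)) =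
      (∫ x in Ioi (1 : ℝ), l ^ k * jmp (ee τ (1 - (α * k + β))) x) +
        I * ∫ y in (-Real.pi)..Real.pi, l ^ k * ee τ (1 - (α * k + β)) ((1 : ℝ) + y * I) := by
    intro k
    rw [← hankel hτ 1 (show 0 < α * k + β by positivity), Hk, Vt, integral_const_mul,
      intervalIntegral.integral_const_mul]
    ring
  simp_rw [e]
  exact C

end Pool.Agent.H.MP_ff8adc_an
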