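import Mathlib
import Pool.Agent.H.MP_ff8adc_an.B

set_option autoImplicit false

open Filter Topology Set Function MeasureTheory Complex

namespace Pool.Agent.H.MP_ff8adc_an

noncomputable def om (α : ℝ) : ℂ := exp (α * Real.pi * I)
noncomputable def om' (α : ℝ) : ℂ := exp (-(α * Real.pi * I))

structure Good (α : ℝ) (l : ℂ) : Prop where
  pos : 0 < α
  nl : ‖l‖ = 1
  h1 : (om α * (starRingEnd ℂ) l).re ≤ 1 / 2
  h2 : (om' α * (starRingEnd ℂ) l).re ≤ 1 / 2

theorem om_norm (α : ℝ) : ‖om α‖ = 1 := by rw [om, norm_exp]; simp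
theorem om_norm' (α : ℝ) : ‖om' α‖ = 1 := by rw [om', norm_exp]; simp
theorem om_mul (α : ℝ) : om α * om' α = 1 := by rw [om, om', ← exp_add]; simp
theorem om_sub (α : ℝ) : om α - om' α = 2 * I * (Real.sin (α * Real.pi) : ℝ) := by
  rw [om, om', ofReal_sin, Complex.sin]
  push_cast
  rw [neg_mul]
  linear_combination (exp (α * Real.pi * I) - exp (-(α * Real.pi * I))) * I_mul_I

theorem den_lb {w l : ℂ} (hw : ‖w‖ = 1) (hl : ‖l‖ = 1) (h : (w * (starRingEnd ℂ) l).re ≤ 1 / 2)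
    {r : ℝ} (hr : 0 ≤ r) : (r ^ 2 + 1) / 2 ≤ ‖r * w - l‖ ^ 2 := by
  have e1 := Complex.sq_norm w
  have e2 := Complex.sq_norm l
  rw [hw, normSq_apply] at e1
  rw [hl, normSq_apply] at e2
  rw [Complex.sq_norm, normSq_apply]
  simp at h ⊢
  nlinarith [mul_le_mul_of_nonneg_left h hr, sq_nonneg (r - 1)]

noncomputable def DD (α : ℝ) (l : ℂ) (x : ℝ) : ℂ :=
  ((Real.exp (α * x) : ℝ) * om α - l) * ((Real.exp (α * x) : ℝ) * om' α - l)

theorem DD_lb {α : ℝ} {l : ℂ} (G : Good α l) (x : ℝ) :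
    (Real.exp (α * x) ^ 2 + 1) / 2 ≤ ‖DD α l x‖ := by
  have a1 := den_lb (om_norm α) G.nl G.h1 (Real.exp_pos (α * x)).le
  have a2 := den_lb (om_norm' α) G.nl G.h2 (Real.exp_pos (α * x)).le
  rw [DD, norm_mul]
  refine (sq_le_sq₀ (by positivity) (by positivity)).1 ?_
  rw [mul_pow, sq]
  exact mul_le_mul a1 a2 (by positivity) (by positivity)

theorem DD_half {α : ℝ} {l : ℂ} (G : Good α l) (x : ℝ) : 1 / 2 ≤ ‖DD α l x‖ :=
  le_trans (by nlinarith [sq_nonneg (Real.exp (α * x))]) (DD_lb G x)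

theorem DD_ne {α : ℝ} {l : ℂ} (G : Good α l) (x : ℝ) : DD α l x ≠ 0 :=
  norm_pos_iff.1 (lt_of_lt_of_le (by norm_num) (DD_half G x))

theorem KD_le {α : ℝ} {l : ℂ} (G : Good α l) (τ a x : ℝ) :
    ‖(K τ a x : ℂ) / DD α l x‖ ≤ 2 * K τ a x := by
  have := DD_half G x
  have := K_pos τ a x
  rw [norm_div, norm_real, Real.norm_eq_abs, abs_of_pos (K_pos _ _ _), div_le_iff₀ (by linarith)]
  nlinarith

theorem KD_cont {α : ℝ} {l : ℂ} (G : Good α l) (τ a : ℝ) :
    Continuous fun x => (K τ a x : ℂ) / DD α l x :=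
  (continuous_ofReal.comp (K_cont τ a)).div (by unfold DD; fun_prop) (DD_ne G)

theorem KD_int {α : ℝ} {l : ℂ} (G : Good α l) {τ a : ℝ} (hτ : 0 < τ) (ha : 0 < a) :
    Integrable fun x => (K τ a x : ℂ) / DD α l x :=
  ((K_int hτ ha).1.const_mul 2).mono' (KD_cont G τ a).aestronglyMeasurable
    (Eventually.of_forall (KD_le G τ a))

noncomputable def JJ (τ a α : ℝ) (l : ℂ) : ℂ := ∫ x, (K τ a x : ℂ) / DD α l x

theorem JJ_bd {α : ℝ} {l : ℂ} (G : Good α l) {τ a : ℝ} (hτ : 0 < τ) (ha : 0 < a) :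
    ‖JJ τ a α l‖ ≤ 2 * ((1 / τ) ^ a * Real.Gamma a) := by
  rw [← (K_int hτ ha).2, ← integral_const_mul]
  exact norm_integral_le_of_norm_le ((K_int hτ ha).1.const_mul 2)
    (Eventually.of_forall (KD_le G τ a))

theorem JJ_est {α : ℝ} {l : ℂ} (G : Good α l) {τ a : ℝ} (hτ : 0 < τ) (ha : 0 < a) :
    ‖JJ τ a α l - ((1 / τ) ^ a * Real.Gamma a : ℝ) / l ^ 2‖ ≤
      5 * ((1 / τ) ^ (a + α) * Real.Gamma (a + α)) := by
  have h2 := K_int hτ (add_pos ha G.pos)
  have i0 : Integrable fun x => (K τ a x : ℂ) / l ^ 2 := (K_int hτ ha).1.ofReal.div_const _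
  rw [← (K_int hτ ha).2, ← h2.2, ← integral_const_mul, ← integral_complex_ofReal,
    ← integral_div, JJ, ← integral_sub (KD_int G hτ ha) i0]
  refine norm_integral_le_of_norm_le (h2.1.const_mul 5) (Eventually.of_forall (fun x => ?_))
  have hl : l ≠ 0 := norm_pos_iff.1 (by rw [G.nl]; norm_num)
  have hD := DD_ne G x
  set r := Real.exp (α * x) with hr
  have r0 : 0 < r := Real.exp_pos _
  have e : (K τ a x : ℂ) / DD α l x - K τ a x / l ^ 2 =
      (K τ a x * r : ℝ) * ((l * (om α + om' α) - r) / (DD α l x * l ^ 2)) := by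
    push_cast
    field_simp
    rw [DD, ← hr]
    linear_combination (-(K τ a x : ℂ) * r ^ 2) * om_mul α
  have e2 : K τ a x * r = K τ (a + α) x := by
    rw [K, K, hr, ← Real.exp_add]; congr 1; ring
  rw [e, e2, norm_mul, norm_real, Real.norm_eq_abs, abs_of_pos (K_pos _ _ _), mul_comm]
  refine mul_le_mul_of_nonneg_right ?_ (K_pos _ _ _).le
  have h3 := DD_lb G x
  have h4 : ‖l * (om α + om' α) - r‖ ≤ 2 + r := by
    refine (norm_sub_le _ _).trans ?_
    rw [norm_mul, G.nl, norm_real, Real.norm_eq_abs, abs_of_pos r0]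
    have := norm_add_le (om α) (om' α)
    rw [om_norm, om_norm'] at this
    linarith
  rw [norm_div, norm_mul, norm_pow, G.nl, one_pow, mul_one, div_le_iff₀ (norm_pos_iff.2 hD)]
  nlinarith [sq_nonneg (r - 1 / 5)]

theorem JJ_cont {s : Set (ℝ × ℝ)} {τ a α : ℝ × ℝ → ℝ} {l : ℝ × ℝ → ℂ} (c1 : Continuous τ)
    (c2 : Continuous a) (c3 : Continuous α) (c4 : Continuous l)
    (h : ∀ p ∈ s, Good (α p) (l p) ∧ 1 ≤ τ p ∧ 1 / 2 ≤ a p ∧ a p ≤ 3) :
    ContinuousOn (fun p => JJ (τ p) (a p) (α p) (l p)) s := by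
  refine continuousOn_of_dominated (bound := fun x => 2 * (K 1 (1 / 2) x + K 1 3 x))
    (fun p hp => (KD_cont (h p hp).1 _ _).aestronglyMeasurable)
    (fun p hp => Eventually.of_forall (fun x => (KD_le (h p hp).1 _ _ x).trans ?_))
    (((K_int one_pos (by norm_num)).1.add (K_int one_pos (by norm_num)).1).const_mul 2)
    (Eventually.of_forall (fun x => ContinuousOn.div (Continuous.continuousOn (by
      unfold K; fun_prop)) (Continuous.continuousOn (by unfold DD om om'; fun_prop))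
      (fun p hp => DD_ne (h p hp).1 x)))
  obtain ⟨-, b1, b2, b3⟩ := h p hp
  have := K_pos 1 (1 / 2) x
  have := K_pos 1 3 x
  have := Real.exp_pos x
  rcases le_total x 0 with hx | hx
  · have : K (τ p) (a p) x ≤ K 1 (1 / 2) x := Real.exp_le_exp.2 (by nlinarith)
    linarith
  · have : K (τ p) (a p) x ≤ K 1 3 x := Real.exp_le_exp.2 (by nlinarith)
    linarith

theorem gg_up (τ α β : ℝ) (l : ℂ) (x : ℝ) : gg τ α β l (x + Real.pi * I) =
    K τ (1 + α - β) x * om (1 + α - β) / ((Real.exp (α * x) : ℝ) * om α - l) := by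
  rw [gg, ee_up, om, om, mul_add, exp_add]; push_cast; rw [mul_assoc (α : ℂ)]

theorem gg_dn (τ α β : ℝ) (l : ℂ) (x : ℝ) : gg τ α β l (x + (-Real.pi : ℝ) * I) =
    K τ (1 + α - β) x * om' (1 + α - β) / ((Real.exp (α * x) : ℝ) * om' α - l) := by
  rw [gg, ee_dn, om', om', mul_add, exp_add]; push_cast; rw [mul_assoc (α : ℂ), neg_mul, mul_neg]

theorem jmp_gg {α : ℝ} {l : ℂ} (G : Good α l) (τ β x : ℝ) : jmp (gg τ α β l) x =
    (om (1 + α - β) * om' α - om' (1 + α - β) * om α) * (K τ (1 + α - β + α) x / DD α l x) -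
      l * (om (1 + α - β) - om' (1 + α - β)) * (K τ (1 + α - β) x / DD α l x) := by
  have e2 : K τ (1 + α - β + α) x = K τ (1 + α - β) x * Real.exp (α * x) := by
    rw [K, K, ← Real.exp_add]; congr 1; ring
  have hD := DD_ne G x
  rw [jmp, gg_up, gg_dn, e2]
  rw [DD] at hD ⊢
  have h1 := left_ne_zero_of_mul hD
  have h2 := right_ne_zero_of_mul hD
  rw [ofReal_mul]
  field_simp
  ring

theorem vert_ne {α : ℝ} {l : ℂ} (G : Good α l) {x : ℝ} (hx : x ≠ 0) (y : ℝ) :
    exp (α * ((x : ℂ) + y * I)) - l ≠ 0 := by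
  intro h
  have := congrArg norm (sub_eq_zero.1 h)
  rw [G.nl, norm_exp, Real.exp_eq_one_iff] at this
  simp [G.pos.ne', hx] at this

theorem vert_cont {α : ℝ} {l : ℂ} (G : Good α l) (τ β : ℝ) {x : ℝ} (hx : x ≠ 0) :
    Continuous fun y : ℝ => gg τ α β l (x + y * I) :=
  ((ee_diff τ _).continuous.comp (by fun_prop)).div (by fun_prop) (vert_ne G hx)

theorem hk_rep {α : ℝ} {l c : ℂ} (G : Good α l) {τ β : ℝ} (hτ : 0 < τ) (ha : 0 < 1 + α - β)
    (hr : ∀ a < 0, Rect (gg τ α β l) a 1 (-Real.pi) Real.pi = c) :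
    Hk (gg τ α β l) 1 = c + ((om (1 + α - β) * om' α - om' (1 + α - β) * om α) *
      JJ τ (1 + α - β + α) α l - l * (om (1 + α - β) - om' (1 + α - β)) * JJ τ (1 + α - β) α l) := by
  have i1 := (KD_int G hτ (add_pos ha G.pos)).const_mul
    (om (1 + α - β) * om' α - om' (1 + α - β) * om α)
  have i2 := (KD_int G hτ ha).const_mul (l * (om (1 + α - β) - om' (1 + α - β)))
  have hv := Vt_lim (g := gg τ α β l) (c := 0)
    (B := fun a => Real.exp τ * Real.exp ((1 + α - β) * a) * 2)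
    (by simpa using ((exp_bot ha).const_mul (Real.exp τ)).mul_const 2) (by
      filter_upwards [eventually_lt_atBot 0, (exp_bot G.pos).eventually
        (ge_mem_nhds (show (0 : ℝ) < 1 / 2 by norm_num))] with a h1 h2
      refine ⟨vert_cont G τ β h1.ne, fun y => ?_⟩
      have h3 := norm_sub_norm_le l (exp (α * ((a : ℂ) + y * I)))
      have h4 : ‖exp (α * ((a : ℂ) + y * I))‖ = Real.exp (α * a) := by rw [norm_exp]; simp
      rw [G.nl, h4, norm_sub_rev] at h3
      have h5 := ee_norm' hτ.le (1 + α - β) h1.le y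
      rw [sub_zero, gg, norm_div, div_le_iff₀ (by linarith)]
      nlinarith [norm_nonneg (ee τ (1 + α - β) (a + y * I))])
  rw [H_eq (by rw [funext (jmp_gg G τ β)]; exact i1.sub i2) ?_ ?_ hv
    (by filter_upwards [eventually_lt_atBot 0] with a h using hr a h)]
  · simp_rw [jmp_gg G]
    rw [integral_sub i1 i2, integral_const_mul, integral_const_mul, JJ, JJ]
    simp
  · simp_rw [gg_up]
    have := K_cont τ (1 + α - β)
    exact Continuous.div (by fun_prop) (by fun_prop) (fun x => left_ne_zero_of_mul (DD_ne G x))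
  · simp_rw [gg_dn]
    have := K_cont τ (1 + α - β)
    exact Continuous.div (by fun_prop) (by fun_prop) (fun x => right_ne_zero_of_mul (DD_ne G x))

end Pool.Agent.H.MP_ff8adc_an
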