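import Mathlib
import Pool.Agent.H.MP_ff8adc_an.C
import Pool.Agent.H.MP_786b32_co.A

set_option autoImplicit false

open Filter Topology Set Function MeasureTheory Complex

namespace Pool.Agent.H.MP_ff8adc_an

theorem hs_E {τ α β : ℝ} {l : ℂ} (hτ : 0 < τ) (hα : 0 < α) (hβ : 0 < β) (hl : ‖l‖ = 1) :
    HasSum (fun k : ℕ => (l * (τ ^ α : ℝ)) ^ k / (Real.Gamma (α * k + β) : ℝ))
      (Hk (gg τ α β l) 1 / (2 * Real.pi * I * (τ ^ (β - 1) : ℝ))) := by
  have h := (hk_sum hτ hα hβ hl).div_const (2 * Real.pi * I * (τ ^ (β - 1) : ℝ))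
  have e : ∀ k : ℕ, (l * (τ ^ α : ℝ)) ^ k / (Real.Gamma (α * k + β) : ℝ) =
      l ^ k * (2 * Real.pi * I * (τ ^ (α * k + β - 1) / Real.Gamma (α * k + β) : ℝ)) /
        (2 * Real.pi * I * (τ ^ (β - 1) : ℝ)) := by
    intro k
    have h1 : ((τ ^ (β - 1) : ℝ) : ℂ) ≠ 0 := ofReal_ne_zero.2 (Real.rpow_pos_of_pos hτ _).ne'
    have h2 : (Real.pi : ℂ) ≠ 0 := ofReal_ne_zero.2 Real.pi_ne_zero
    rw [add_sub_assoc, Real.rpow_add hτ, Real.rpow_mul_natCast hτ.le, ofReal_div, ofReal_mul,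
      ofReal_pow, mul_pow]
    field_simp
  simp_rw [e]
  exact h

theorem hs_of {f : ℕ → ℂ} {a b : ℂ} (h : HasSum f a) (e : a = b) : HasSum f b := e ▸ h

theorem rp_le {τ a : ℝ} (n : ℕ) (h1 : 10000 ≤ τ) (h2 : τ ≤ 16384) (h : n - a ≤ 1 / 14) :
    (1 / τ) ^ a ≤ 2 * (1 / 10000) ^ n := by
  have h0 : 0 < τ := by linarith
  have e : (1 / τ) ^ a = (1 / τ) ^ n * τ ^ (n - a) := by
    rw [one_div, Real.inv_rpow h0.le, inv_pow, Real.rpow_sub h0, Real.rpow_natCast]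
    field_simp
  have h3 : τ ^ (n - a) ≤ 2 := by
    refine (Real.rpow_le_rpow_of_exponent_le (by linarith) h).trans ?_
    refine (Real.rpow_le_rpow h0.le h2 (by norm_num)).trans (le_of_eq ?_)
    rw [show (16384 : ℝ) = 2 ^ (14 : ℕ) by norm_num, one_div]
    exact_mod_cast Real.pow_rpow_inv_natCast (x := 2) (n := 14) (by norm_num) (by norm_num)
  have h4 : (1 / τ) ^ n ≤ (1 / 10000) ^ n :=
    pow_le_pow_left₀ (by positivity) (one_div_le_one_div_of_le (by norm_num) h1) n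
  rw [e, mul_comm]
  exact mul_le_mul h3 h4 (by positivity) (by norm_num)

theorem G12 {x : ℝ} (h1 : 1 ≤ x) (h2 : x ≤ 2) : Real.Gamma x ≤ 1 := by
  have := Real.convexOn_Gamma.le_max_of_mem_Icc (x := 1) (y := 2) (by simp) (by simp) ⟨h1, h2⟩
  simpa using this

theorem G23 {x : ℝ} (h1 : 1 ≤ x) (h2 : x ≤ 3) : Real.Gamma x ≤ 2 := by
  have := Real.convexOn_Gamma.le_max_of_mem_Icc (x := 1) (y := 3) (by simp) (by simp) ⟨h1, h2⟩
  rw [show (3 : ℝ) = 2 + 1 by norm_num, Real.Gamma_add_one two_ne_zero] at this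
  simpa using this

theorem G01 {x : ℝ} (h1 : 0.99 ≤ x) (h2 : x ≤ 1) : 1 ≤ Real.Gamma x ∧ Real.Gamma x ≤ 1.02 := by
  have h0 : 0 < x := by linarith
  refine ⟨by simpa using Real.Gamma_strictAntiOn_Ioc.antitoneOn ⟨h0, h2⟩ (by simp) h2, ?_⟩
  have h := G12 (x := x + 1) (by linarith) (by linarith)
  rw [Real.Gamma_add_one h0.ne'] at h
  nlinarith [Real.Gamma_pos_of_pos h0]

theorem exp_lb (n : ℕ) {x : ℝ} (h : x ≤ n) : (1 / 2.72) ^ n ≤ Real.exp (-x) := by
  refine le_trans ?_ (Real.exp_le_exp.2 (show (n : ℝ) * (-1) ≤ -x by linarith))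
  rw [Real.exp_nat_mul, Real.exp_neg, ← one_div]
  exact pow_le_pow_left₀ (by norm_num) (one_div_le_one_div_of_le (Real.exp_pos 1)
    (by linarith [Real.exp_one_lt_d9])) n

theorem exp_ub (n : ℕ) {x : ℝ} (h : n ≤ x) : Real.exp (-x) ≤ (1 / 2.718) ^ n := by
  refine le_trans (Real.exp_le_exp.2 (show -x ≤ (n : ℝ) * (-1) by linarith)) ?_
  rw [Real.exp_nat_mul, Real.exp_neg, ← one_div]
  exact pow_le_pow_left₀ (by positivity) (one_div_le_one_div_of_le (by norm_num)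
    (by linarith [Real.exp_one_gt_d9])) n

noncomputable def TT (v : ℝ) : ℝ := 3185.5 * Real.pi + v

theorem TT_cont : Continuous TT := by unfold TT; fun_prop

theorem TT_bd {v : ℝ} (hv : v ∈ Icc (-1 : ℝ) 1) : 10006 ≤ TT v ∧ TT v ≤ 10009 := by
  have := Real.pi_gt_d6
  have := Real.pi_lt_d6
  constructor <;> (rw [TT]; linarith [hv.1, hv.2])

noncomputable def SS (e : ℝ) : ℝ := Real.sin (e * Real.pi) / Real.pi

theorem SS_cont : Continuous SS := by unfold SS; fun_prop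

theorem SS_bd {e : ℝ} (he : e ∈ Icc (0.0008 : ℝ) 0.0012) : 0.63 * e ≤ SS e ∧ SS e ≤ e := by
  have := Real.pi_gt_d2
  have := Real.pi_lt_d2
  have e0 : 0 < e := by linarith [he.1]
  rw [SS, le_div_iff₀ Real.pi_pos, div_le_iff₀ Real.pi_pos]
  refine ⟨?_, Real.sin_le (by positivity)⟩
  have h := Real.mul_le_sin (x := e * Real.pi) (by positivity) (by nlinarith [he.2])
  rw [show 2 / Real.pi * (e * Real.pi) = 2 * e by field_simp] at h
  nlinarith

noncomputable def PP (e τ : ℝ) : ℝ := (1 / τ) ^ (1 - e) * Real.Gamma (1 - e)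

theorem PP_bd {e v : ℝ} (he : e ∈ Icc (0.0008 : ℝ) 0.0012) (hv : v ∈ Icc (-1 : ℝ) 1) :
    0.000099 ≤ PP e (TT v) ∧ PP e (TT v) ≤ 0.00021 := by
  obtain ⟨t1, t2⟩ := TT_bd hv
  obtain ⟨g1, g2⟩ := G01 (x := 1 - e) (by linarith [he.2]) (by linarith [he.1])
  have h1 := rp_le (τ := TT v) (a := 1 - e) 1 (by linarith) (by linarith)
    (by push_cast; linarith [he.2])
  have h2 : (1 / TT v) ^ (1 : ℝ) ≤ (1 / TT v) ^ (1 - e) :=
    Real.rpow_le_rpow_of_exponent_ge (by positivity) (by rw [div_le_one (by linarith)]; linarith)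
      (by linarith [he.1])
  have h3 : 0.000099 ≤ 1 / TT v := by rw [le_div_iff₀ (by linarith)]; linarith
  rw [Real.rpow_one] at h2
  rw [PP]
  constructor <;> nlinarith

theorem sin_lb {d : ℝ} (h0 : 0 < d) (h1 : d ≤ 0.01) : 0.999 * d ≤ Real.sin d := by
  have := Real.sin_gt_sub_cube h0
  nlinarith [mul_le_mul h1 h1 h0.le (by norm_num)]

theorem box (Z : ℝ × ℝ → ℂ) (hZ : ContinuousOn Z (Icc 0.0008 0.0012 ×ˢ Icc (-1) 1))
    (h : ∀ e ∈ Icc (0.0008 : ℝ) 0.0012, ∀ v ∈ Icc (-1 : ℝ) 1, ∃ lam d : ℝ, ∃ R : ℂ,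
      Z (e, v) = lam * exp (TT v * (I * exp (d * I))) + I * (SS e * PP e (TT v) : ℝ) + R ∧
      1 ≤ lam ∧ lam ≤ 2.1 ∧ 1.57 * e ≤ d ∧ d ≤ 1.58 * e ∧ ‖R‖ ≤ 1e-9) :
    ∃ e ∈ Icc (0.0008 : ℝ) 0.0012, ∃ v ∈ Icc (-1 : ℝ) 1, Z (e, v) = 0 := by
  have key : ∀ e ∈ Icc (0.0008 : ℝ) 0.0012, ∀ v ∈ Icc (-1 : ℝ) 1, ∃ A u M r s : ℝ,
      (Z (e, v)).re = A * Real.sin u + r ∧ (Z (e, v)).im = -(A * Real.cos u) + M + s ∧
      |r| ≤ 1e-9 ∧ |s| ≤ 1e-9 ∧ v - 0.03 ≤ u ∧ u ≤ v ∧ 0.00006 * e ≤ M ∧ M ≤ 0.00021 * e ∧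
      Real.exp (-(15815 * e)) ≤ A ∧ A ≤ 2.1 * Real.exp (-(15600 * e)) := by
    intro e he v hv
    obtain ⟨lam, d, R, hz, l1, l2, d1, d2, hR⟩ := h e he v hv
    obtain ⟨t1, t2⟩ := TT_bd hv
    obtain ⟨s1, s2⟩ := SS_bd he
    obtain ⟨p1, p2⟩ := PP_bd he hv
    have e1 := he.1
    have e2 := he.2
    have d0 : 0 < d := by linarith
    have q1 := sin_lb d0 (by linarith)
    have q2 := Real.sin_le d0.le
    have q3 := Real.one_sub_sq_div_two_le_cos (x := d)
    have q4 := Real.cos_le_one d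
    have ec : TT v * Real.cos d = (v - TT v * (1 - Real.cos d) - Real.pi / 2) +
        (1593 : ℕ) * (2 * Real.pi) := by
      rw [TT]; push_cast; ring
    have c1 : Real.cos (TT v * Real.cos d) = Real.sin (v - TT v * (1 - Real.cos d)) :=
      (congrArg Real.cos ec).trans
        ((Real.cos_add_nat_mul_two_pi _ _).trans (Real.cos_sub_pi_div_two _))
    have c2 : Real.sin (TT v * Real.cos d) = -Real.cos (v - TT v * (1 - Real.cos d)) :=
      (congrArg Real.sin ec).trans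
        ((Real.sin_add_nat_mul_two_pi _ _).trans (Real.sin_sub_pi_div_two _))
    refine ⟨lam * Real.exp (-(TT v * Real.sin d)), v - TT v * (1 - Real.cos d), SS e * PP e (TT v),
      R.re, R.im, ?_, ?_, (abs_re_le_norm R).trans hR, (abs_im_le_norm R).trans hR, ?_, ?_,
      by nlinarith, by nlinarith, ?_, ?_⟩
    · rw [← c1, hz]
      simp [exp_re, exp_im, mul_assoc]
    · rw [← mul_neg, ← c2, hz]
      simp [exp_re, exp_im, mul_assoc]
    · nlinarith [mul_le_mul (show d ≤ 0.002 by linarith) (show d ≤ 0.002 by linarith) d0.le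
        (by norm_num)]
    · nlinarith
    · have : Real.exp (-(15815 * e)) ≤ Real.exp (-(TT v * Real.sin d)) :=
        Real.exp_le_exp.2 (by nlinarith)
      nlinarith [Real.exp_pos (-(15815 * e))]
    · exact mul_le_mul l2 (Real.exp_le_exp.2 (by nlinarith)) (Real.exp_pos _).le (by norm_num)
  have hs : ∀ u : ℝ, 0.97 ≤ u → u ≤ 1.03 → 0.6 ≤ Real.sin u := by
    intro u u1 u2
    have := Real.pi_gt_d2
    have := Real.pi_lt_d2
    have h := Real.mul_le_sin (x := u) (by linarith) (by linarith)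
    rw [div_mul_eq_mul_div, div_le_iff₀ Real.pi_pos] at h
    nlinarith
  obtain ⟨e, he, v, hv, h1, h2⟩ := Pool.Agent.H.MP_786b32_co.pm2 (fun p => (Z p).re)
    (fun p => (Z p).im) (a0 := 0.0008) (a1 := 0.0012) (g0 := -1) (g1 := 1) (by norm_num)
    (by norm_num) (continuous_re.comp_continuousOn hZ) (continuous_im.comp_continuousOn hZ)
    (fun e he => by
      have b := exp_lb 19 (x := 15815 * e) (by push_cast; linarith [he.2])
      constructor
      · obtain ⟨A, u, M, r, s, a1, -, a3, -, a5, a6, -, -, a9, -⟩ := key e he (-1) (by norm_num)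
        have := hs (-u) (by linarith) (by linarith)
        rw [Real.sin_neg] at this
        rw [a1]
        nlinarith [abs_le.1 a3]
      · obtain ⟨A, u, M, r, s, a1, -, a3, -, a5, a6, -, -, a9, -⟩ := key e he 1 (by norm_num)
        have := hs u (by linarith) (by linarith)
        rw [a1]
        nlinarith [abs_le.1 a3])
    (fun v hv => by
      constructor
      · obtain ⟨A, u, M, r, s, -, a2, -, a4, a5, a6, -, a8, a9, -⟩ :=
          key 0.0008 (by norm_num) v hv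
        have b := exp_lb 13 (x := 15815 * 0.0008) (by norm_num)
        have c : 0.46 ≤ Real.cos u := by
          nlinarith [Real.one_sub_sq_div_two_le_cos (x := u), hv.1, hv.2]
        rw [a2]
        nlinarith [abs_le.1 a4]
      · intro _
        obtain ⟨A, u, M, r, s, -, a2, -, a4, a5, a6, a7, -, a9, a10⟩ :=
          key 0.0012 (by norm_num) v hv
        have b := exp_ub 18 (x := 15600 * 0.0012) (by norm_num)
        rw [a2]
        nlinarith [abs_le.1 a4, Real.cos_le_one u, Real.exp_pos (-(15815 * 0.0012))])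
  exact ⟨e, he, v, hv, Complex.ext h1 h2⟩

end Pool.Agent.H.MP_ff8adc_an
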